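import Mathlib
import Pool.Agent.U18.UB.Stm

/-!
# Project UB, package GB (author helper818): the Poincare inequality in one block
-/

set_option autoImplicit false

namespace Pool.Agent.U818.UB

open MeasureTheory Set Filter Topology Pool.Agent.U18.UB
open scoped ENNReal InnerProductSpace Pointwise

theorem nrm_zero {m : ℕ} {N : E m → ℝ} (h : Nrm N) : N 0 = 0 := by
  simpa using h.smul 0 0

theorem nrm_nonneg {m : ℕ} {N : E m → ℝ} (h : Nrm N) (x : E m) : 0 ≤ N x := by
  by_cases hx : x = 0
  · rw [hx, nrm_zero h]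
  · exact (h.pos x hx).le

theorem nrm_sub_le {m : ℕ} {N : E m → ℝ} (h : Nrm N) (x y : E m) : |N x - N y| ≤ N (x - y) := by
  have hneg : N (y - x) = N (x - y) := by
    have h1 := h.smul (-1) (x - y)
    rw [neg_smul, one_smul, neg_sub] at h1
    rw [h1]
    simp
  rw [abs_le]
  constructor
  · have h1 := h.add_le (y - x) x
    rw [sub_add_cancel] at h1
    linarith
  · have h1 := h.add_le (x - y) y
    rw [sub_add_cancel] at h1
    linarith

theorem nrm_upper {m : ℕ} {N : E m → ℝ} (h : Nrm N) : ∃ C : ℝ, 0 ≤ C ∧ ∀ x, N x ≤ C * ‖x‖ := by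
  refine ⟨∑ i, N (EuclideanSpace.basisFun (Fin m) ℝ i), Finset.sum_nonneg fun i _ => nrm_nonneg h _,
    fun x => ?_⟩
  have h1 : N (∑ i, (EuclideanSpace.basisFun (Fin m) ℝ).repr x i •
      EuclideanSpace.basisFun (Fin m) ℝ i) ≤
      ∑ i, N ((EuclideanSpace.basisFun (Fin m) ℝ).repr x i • EuclideanSpace.basisFun (Fin m) ℝ i) :=
    Finset.le_sum_of_subadditive N (nrm_zero h).le h.add_le _ _
  rw [(EuclideanSpace.basisFun (Fin m) ℝ).sum_repr x] at h1
  refine h1.trans ?_
  rw [Finset.sum_mul]
  apply Finset.sum_le_sum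
  intro i _
  rw [h.smul, mul_comm]
  apply mul_le_mul_of_nonneg_left _ (nrm_nonneg h _)
  rw [EuclideanSpace.basisFun_repr, ← Real.norm_eq_abs]
  exact PiLp.norm_apply_le x i

theorem nrm_cont {m : ℕ} {N : E m → ℝ} (h : Nrm N) : Continuous N := by
  obtain ⟨C, hC, hu⟩ := nrm_upper h
  have : LipschitzWith ⟨C, hC⟩ N := by
    apply LipschitzWith.of_dist_le_mul
    intro x y
    rw [Real.dist_eq, dist_eq_norm]
    exact (nrm_sub_le h x y).trans (hu _)
  exact this.continuous

theorem nrm_lower {m : ℕ} {N : E m → ℝ} (h : Nrm N) : ∃ c : ℝ, 0 < c ∧ ∀ x, c * ‖x‖ ≤ N x := by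
  by_cases hS : (Metric.sphere (0 : E m) 1).Nonempty
  · obtain ⟨x0, hx0, hmin⟩ := (isCompact_sphere (0 : E m) 1).exists_isMinOn hS
      (nrm_cont h).continuousOn
    have hne : x0 ≠ 0 := by
      rintro rfl
      simp at hx0
    refine ⟨N x0, h.pos x0 hne, fun x => ?_⟩
    by_cases hx : x = 0
    · rw [hx, norm_zero, mul_zero]
      exact nrm_nonneg h _
    have hn : 0 < ‖x‖ := norm_pos_iff.2 hx
    have h1 : N x0 ≤ N (‖x‖⁻¹ • x) := by
      apply hmin
      rw [mem_sphere_zero_iff_norm, norm_smul, norm_inv, norm_norm, inv_mul_cancel₀ hn.ne']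
    rw [h.smul, abs_of_pos (inv_pos.2 hn)] at h1
    calc N x0 * ‖x‖ ≤ (‖x‖⁻¹ * N x) * ‖x‖ := mul_le_mul_of_nonneg_right h1 hn.le
      _ = N x := by field_simp
  · refine ⟨1, one_pos, fun x => ?_⟩
    by_cases hx : x = 0
    · rw [hx, norm_zero, mul_zero]
      exact nrm_nonneg h _
    exfalso
    apply hS
    refine ⟨‖x‖⁻¹ • x, ?_⟩
    rw [mem_sphere_zero_iff_norm, norm_smul, norm_inv, norm_norm,
      inv_mul_cancel₀ (norm_pos_iff.2 hx).ne']

theorem ball_compact {m : ℕ} {N : E m → ℝ} (h : Nrm N) (r : ℝ) : IsCompact {y | N y ≤ r} := by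
  obtain ⟨c, hc, hl⟩ := nrm_lower h
  apply Metric.isCompact_of_isClosed_isBounded (isClosed_le (nrm_cont h) continuous_const)
  apply (Metric.isBounded_closedBall (x := (0 : E m)) (r := r / c)).subset
  intro y hy
  rw [mem_closedBall_zero_iff, le_div_iff₀ hc, mul_comm]
  exact (hl y).trans hy

theorem ball_pos {m : ℕ} {N : E m → ℝ} (h : Nrm N) {r : ℝ} (hr : 0 < r) :
    0 < volume {y | N y ≤ r} := by
  have h1 : IsOpen {y | N y < r} := isOpen_lt (nrm_cont h) continuous_const
  have h2 : ({y | N y < r} : Set (E m)).Nonempty := ⟨0, by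
    show N 0 < r
    rw [nrm_zero h]; exact hr⟩
  exact (h1.measure_pos volume h2).trans_le (measure_mono fun y (hy : N y < r) => (le_of_lt hy : N y ≤ r))

theorem ball_smul {m : ℕ} {N : E m → ℝ} (h : Nrm N) {r : ℝ} (hr : 0 < r) :
    {y | N y ≤ r} = r • ball N := by
  ext y
  rw [mem_smul_set_iff_inv_smul_mem₀ hr.ne']
  show N y ≤ r ↔ N (r⁻¹ • y) ≤ 1
  rw [h.smul, abs_of_pos (inv_pos.2 hr), inv_mul_le_iff₀ hr, mul_one]

theorem bs_compact {b : ℕ} {m : Fin b → ℕ} {N : ∀ i, E (m i) → ℝ} {D : Set (Fin b → ℝ)}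
    {T : Fin b → ℝ} (hN : ∀ i, Nrm (N i)) (hD : UBd D) (hT : ∀ t ∈ D, ∀ i, |t i| ≤ T i) :
    IsCompact (bs N D) := by
  have h1 : IsCompact (univ.pi fun i => {y : E (m i) | N i y ≤ T i}) :=
    isCompact_univ_pi fun i => ball_compact (hN i) _
  apply h1.of_isClosed_subset
  · apply hD.comp.isClosed.preimage
    exact continuous_pi fun i => (nrm_cont (hN i)).comp (continuous_apply i)
  · intro x hx i _
    exact (le_abs_self _).trans (hT _ hx i)

theorem fibre {b : ℕ} {m : Fin b → ℕ} {N : ∀ i, E (m i) → ℝ} {D : Set (Fin b → ℝ)}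
    {T : Fin b → ℝ} (hN : ∀ i, Nrm (N i)) (hD : UBd D) (hT : ∀ t ∈ D, ∀ i, |t i| ≤ T i)
    (i : Fin b) (x : ∀ i, E (m i)) :
    {y | Function.update x i y ∈ bs N D} = ∅ ∨ ∃ r, 0 ≤ r ∧ r ≤ T i ∧
      {y | Function.update x i y ∈ bs N D} = {y | N i y ≤ r} := by
  have key : ∀ y, Function.update x i y ∈ bs N D ↔
      Function.update (fun j => N j (x j)) i (N i y) ∈ D := by
    intro y
    show (fun j => N j (Function.update x i y j)) ∈ D ↔ _
    have : (fun j => N j (Function.update x i y j)) =
        Function.update (fun j => N j (x j)) i (N i y) := by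
      ext j
      exact Function.apply_update (fun j => N j) x i y j
    rw [this]
  rcases eq_empty_or_nonempty {y | Function.update x i y ∈ bs N D} with he | ⟨y0, hy0⟩
  · exact Or.inl he
  right
  set S : Set ℝ := {s | Function.update (fun j => N j (x j)) i s ∈ D} with hS
  have hSc : IsCompact S := by
    apply Metric.isCompact_of_isClosed_isBounded
    · apply hD.comp.isClosed.preimage
      exact continuous_const.update i continuous_id
    · apply (Metric.isBounded_closedBall (x := (0 : ℝ)) (r := T i)).subset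
      intro s hs
      rw [mem_closedBall_zero_iff, Real.norm_eq_abs]
      have h1 := hT _ hs i
      rwa [Function.update_self] at h1
  have hy0' : N i y0 ∈ S := (key y0).1 hy0
  obtain ⟨r, hrS, hr⟩ := hSc.exists_isGreatest ⟨_, hy0'⟩
  have hr0 : 0 ≤ r := (nrm_nonneg (hN i) y0).trans (hr hy0')
  refine ⟨r, hr0, ?_, ?_⟩
  · have h1 := hT _ hrS i
    rw [Function.update_self] at h1
    exact (le_abs_self _).trans h1
  · ext y
    rw [mem_ofPred_eq, key, mem_ofPred_eq]
    constructor
    · intro h
      exact hr h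
    · intro h
      apply hD.unc _ hrS
      intro j
      by_cases hj : j = i
      · subst hj
        rw [Function.update_self, Function.update_self, abs_of_nonneg (nrm_nonneg (hN j) y),
          abs_of_nonneg hr0]
        exact h
      · rw [Function.update_of_ne hj, Function.update_of_ne hj]

theorem int_un {V : Type} [MeasureSpace V] (A : Set V) (g : V → ℝ) :
    ∫ x, g x ∂(un A) = (volume A).toReal⁻¹ * ∫ x in A, g x := by
  unfold un
  rw [integral_smul_measure, ENNReal.toReal_inv, smul_eq_mul]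

theorem poi_r {c0 : ℝ} {m : ℕ} (hm : 1 ≤ m) {N : E m → ℝ} (h : Blk c0 N) (hc : 0 < c0) {r T : ℝ}
    (hr : 0 ≤ r) (hrT : r ≤ T) {φ : E m → ℝ} (hφ : ContDiff ℝ 1 φ) :
    ∫ y in {y | N y ≤ r}, (φ y - (∫ z in {y | N y ≤ r}, φ z) /
      (volume {y | N y ≤ r}).toReal) ^ 2 ≤
      c0 * T ^ 2 * ∫ y in {y | N y ≤ r}, ‖fderiv ℝ φ y‖ ^ 2 := by
  have hnn : 0 ≤ ∫ y in {y | N y ≤ r}, ‖fderiv ℝ φ y‖ ^ 2 := by
    apply integral_nonneg
    intro y
    positivity
  rcases hr.eq_or_lt with hr0 | hr0
  · have h0 : volume {y | N y ≤ r} = 0 := by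
      have h1 : {y | N y ≤ r} ⊆ (0 : ℝ) • ({0} : Set (E m)) := by
        intro y hy
        rw [← hr0] at hy
        have : y = 0 := by
          by_contra hne
          exact absurd (h.nrm.pos y hne) (not_lt.2 hy)
        rw [this]
        exact ⟨0, rfl, by simp⟩
      apply measure_mono_null h1
      rw [Measure.addHaar_smul]
      simp only [finrank_euclideanSpace, Fintype.card_fin]
      rw [zero_pow (by omega)]
      simp
    have h2 : volume.restrict {y | N y ≤ r} = 0 := Measure.restrict_eq_zero.2 h0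
    rw [h2]
    simp
  · have hV : 0 < (volume (ball N)).toReal :=
      ENNReal.toReal_pos (ball_pos h.nrm one_pos).ne' (ball_compact h.nrm 1).measure_lt_top.ne
    set V : ℝ := (volume (ball N)).toReal with hVdef
    have hR : 0 < r ^ m := pow_pos hr0 m
    have hvol : (volume {y | N y ≤ r}).toReal = r ^ m * V := by
      rw [ball_smul h.nrm hr0, Measure.addHaar_smul, ENNReal.toReal_mul,
        ENNReal.toReal_ofReal (abs_nonneg _)]
      simp only [finrank_euclideanSpace, Fintype.card_fin]
      rw [abs_of_pos hR]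
    have hch : ∀ g : E m → ℝ, ∫ y in {y | N y ≤ r}, g y = r ^ m * ∫ z in ball N, g (r • z) := by
      intro g
      rw [Measure.setIntegral_comp_smul_of_pos volume g (ball N) hr0, ball_smul h.nrm hr0]
      simp only [finrank_euclideanSpace, Fintype.card_fin, smul_eq_mul]
      rw [← mul_assoc, mul_inv_cancel₀ hR.ne', one_mul]
    set ψ : E m → ℝ := fun z => φ (r • z) with hψdef
    have hψ : ContDiff ℝ 1 ψ := hφ.comp (contDiff_const_smul r)
    set q : ℝ := (∫ z in ball N, ψ z) / V with hq
    have hq' : (∫ z in {y | N y ≤ r}, φ z) / (volume {y | N y ≤ r}).toReal = q := by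
      rw [hvol, hch φ, hq, mul_div_mul_left _ _ hR.ne']
    rw [hq', hch, hch]
    have hK : IsCompact (ball N) := ball_compact h.nrm 1
    have hi1 : IntegrableOn ψ (ball N) := hψ.continuous.continuousOn.integrableOn_compact hK
    have hi2 : IntegrableOn (fun z => ψ z ^ 2) (ball N) :=
      (hψ.continuous.pow 2).continuousOn.integrableOn_compact hK
    have hP := h.poi ψ hψ
    rw [int_un, int_un, int_un] at hP
    have hmean : ∫ z in ball N, ψ z = V * q := by rw [hq]; field_simp
    have hexp : ∫ z in ball N, (ψ z - q) ^ 2 = (∫ z in ball N, ψ z ^ 2) - V * q ^ 2 := by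
      have h1 : ∀ z, (ψ z - q) ^ 2 = (ψ z ^ 2 - (2 * q) * ψ z) + q ^ 2 := fun z => by ring
      simp_rw [h1]
      have i3 : IntegrableOn (fun z => 2 * q * ψ z) (ball N) := hi1.const_mul _
      have i4 : IntegrableOn (fun z => ψ z ^ 2 - 2 * q * ψ z) (ball N) := hi2.sub i3
      have i5 : IntegrableOn (fun _ : E m => q ^ 2) (ball N) :=
        integrableOn_const hK.measure_lt_top.ne
      rw [integral_add i4 i5, integral_sub hi2 i3, integral_const_mul, hmean]
      simp only [integral_const, MeasurableSet.univ, measureReal_restrict_apply, univ_inter,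
        smul_eq_mul]
      have : volume.real (ball N) = V := rfl
      rw [this]
      ring
    have hder : ∀ z, ‖fderiv ℝ ψ z‖ = r * ‖fderiv ℝ φ (r • z)‖ := by
      intro z
      have h1 : HasFDerivAt ψ ((fderiv ℝ φ (r • z)).comp (r • ContinuousLinearMap.id ℝ (E m))) z := by
        have h2 : HasFDerivAt (fun z : E m => r • z) (r • ContinuousLinearMap.id ℝ (E m)) z :=
          (hasFDerivAt_id z).const_smul r
        exact ((hφ.differentiable one_ne_zero (r • z)).hasFDerivAt).comp z h2
      rw [h1.fderiv, ContinuousLinearMap.comp_smul, ContinuousLinearMap.comp_id, norm_smul,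
        Real.norm_eq_abs, abs_of_pos hr0]
    have hexp2 : ∫ z in ball N, ‖fderiv ℝ ψ z‖ ^ 2 =
        r ^ 2 * ∫ z in ball N, ‖fderiv ℝ φ (r • z)‖ ^ 2 := by
      simp_rw [hder, mul_pow]
      rw [integral_const_mul]
    rw [hexp2, hmean] at hP
    have hnn2 : 0 ≤ ∫ z in ball N, ‖fderiv ℝ φ (r • z)‖ ^ 2 := by
      apply integral_nonneg
      intro y
      positivity
    show r ^ m * (∫ z in ball N, (ψ z - q) ^ 2) ≤ _
    rw [hexp]
    have h3 : (∫ z in ball N, ψ z ^ 2) - V * q ^ 2 ≤
        c0 * r ^ 2 * ∫ z in ball N, ‖fderiv ℝ φ (r • z)‖ ^ 2 := by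
      have h4 : V⁻¹ * (V * q) = q := by field_simp
      rw [← hVdef, h4] at hP
      have h5 := mul_le_mul_of_nonneg_left hP hV.le
      have e1 : V * (V⁻¹ * (∫ z in ball N, ψ z ^ 2) - q ^ 2) =
          (∫ z in ball N, ψ z ^ 2) - V * q ^ 2 := by field_simp
      have e2 : V * (c0 * (V⁻¹ * (r ^ 2 * ∫ z in ball N, ‖fderiv ℝ φ (r • z)‖ ^ 2))) =
          c0 * r ^ 2 * ∫ z in ball N, ‖fderiv ℝ φ (r • z)‖ ^ 2 := by field_simp
      rw [e1, e2] at h5
      exact h5
    have h6 : c0 * r ^ 2 * ∫ z in ball N, ‖fderiv ℝ φ (r • z)‖ ^ 2 ≤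
        c0 * T ^ 2 * ∫ z in ball N, ‖fderiv ℝ φ (r • z)‖ ^ 2 := by
      apply mul_le_mul_of_nonneg_right _ hnn2
      apply mul_le_mul_of_nonneg_left _ hc.le
      exact pow_le_pow_left₀ hr hrT 2
    calc r ^ m * ((∫ z in ball N, ψ z ^ 2) - V * q ^ 2) ≤
          r ^ m * (c0 * T ^ 2 * ∫ z in ball N, ‖fderiv ℝ φ (r • z)‖ ^ 2) :=
          mul_le_mul_of_nonneg_left (h3.trans h6) hR.le
      _ = _ := by ring

/-- comparison of integrals fibre by fibre -/
theorem fubini_le {b : ℕ} {m : Fin b → ℕ} {F G : (∀ i, E (m i)) → ℝ≥0∞} (hF : Measurable F)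
    (hG : Measurable G) (i : Fin b)
    (h : ∀ x : (∀ i, E (m i)), ∫⁻ y, F (Function.update x i y) ≤ ∫⁻ y, G (Function.update x i y)) :
    ∫⁻ x, F x ≤ ∫⁻ x, G x := by
  have h1 : ∀ H : (∀ i, E (m i)) → ℝ≥0∞, Measurable H → ∀ x : (∀ i, E (m i)),
      ∫⁻ x, H x = (∫⋯∫⁻_(Finset.univ.erase i), (fun x => ∫⁻ y, H (Function.update x i y))
        ∂(fun i => (volume : Measure (E (m i))))) x := by
    intro H hH x
    rw [volume_pi, lintegral_eq_lmarginal_univ x,
      lmarginal_erase' H hH (Finset.mem_univ i)]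
  rw [h1 F hF 0, h1 G hG 0]
  exact lmarginal_mono (fun x => h x) 0

theorem t_GB : S_GB := by
  intro c0 b m N D T hc hm hN hD hT0 hT f hf hf1 i
  have hNn : ∀ i, Nrm (N i) := fun i => (hN i).nrm
  have hbc : IsCompact (bs N D) := bs_compact hNn hD hT
  have hbm : MeasurableSet (bs N D) := hbc.measurableSet
  set Fx : (∀ i, E (m i)) → Set (E (m i)) := fun x => {y | Function.update x i y ∈ bs N D} with hFx
  have hupd : ∀ x : (∀ i, E (m i)), Continuous fun y : E (m i) => Function.update x i y :=
    fun x => continuous_const.update i continuous_id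
  have hFxc : ∀ x, IsCompact (Fx x) := by
    intro x
    rcases fibre hNn hD hT i x with h | ⟨r, _, _, h⟩
    · rw [hFx]; simp only; rw [h]; exact isCompact_empty
    · rw [hFx]; simp only; rw [h]; exact ball_compact (hNn i) r
  have hFxm : ∀ x, MeasurableSet (Fx x) := fun x => (hFxc x).measurableSet
  set g : (∀ i, E (m i)) → ℝ := (bs N D).indicator f with hg
  set A : (∀ i, E (m i)) → ℝ := fun x => ∫ y, g (Function.update x i y) with hA
  set B : (∀ i, E (m i)) → ℝ≥0∞ := fun x => ∫⁻ y, (bs N D).indicator 1 (Function.update x i y) with hB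
  have hAeq : ∀ x, A x = ∫ y in Fx x, f (Function.update x i y) := by
    intro x
    rw [hA]
    simp only
    rw [← integral_indicator (hFxm x)]
    congr 1
  have hBeq : ∀ x, B x = volume (Fx x) := by
    intro x
    rw [hB]
    simp only
    rw [← lintegral_indicator_one (hFxm x)]
    congr 1
  have hAm : Measurable A := by
    have h1 : Measurable fun p : (∀ i, E (m i)) × E (m i) => g (Function.update p.1 i p.2) :=
      (hf.continuous.measurable.indicator hbm).comp measurable_update'
    exact (h1.stronglyMeasurable.integral_prod_right).measurable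
  have hBm : Measurable B := by
    have h1 : Measurable fun p : (∀ i, E (m i)) × E (m i) =>
        (bs N D).indicator (1 : (∀ i, E (m i)) → ℝ≥0∞) (Function.update p.1 i p.2) :=
      (measurable_one.indicator hbm).comp measurable_update'
    exact h1.lintegral_prod_right'
  set Q : (∀ i, E (m i)) → ℝ := fun x => A x / (B x).toReal with hQ
  have hQm : Measurable Q := hAm.div hBm.ennreal_toReal
  have hQu : ∀ x y, Q (Function.update x i y) = Q x := by
    intro x y
    rw [hQ, hA, hB]
    simp only [Function.update_idem]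
  have hQ1 : ∀ x, |Q x| ≤ 1 := by
    intro x
    rw [hQ]
    simp only
    rw [hAeq, hBeq, abs_div, abs_of_nonneg ENNReal.toReal_nonneg]
    apply div_le_one_of_le₀ _ ENNReal.toReal_nonneg
    have h1 := norm_setIntegral_le_of_norm_le_const (μ := volume) (s := Fx x)
      (f := fun y => f (Function.update x i y)) (C := 1) (hFxc x).measure_lt_top
      (fun y _ => by rw [Real.norm_eq_abs]; exact hf1 _)
    rw [one_mul, Real.norm_eq_abs] at h1
    exact h1
  refine ⟨Q, hQm, hQ1, hQu, ?_⟩
  have hgic : Continuous fun x => gi f x i := by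
    unfold gi
    exact ((hf.continuous_fderiv one_ne_zero).clm_comp continuous_const).norm
  rw [int_un, int_un]
  have hmain : ∫ x in bs N D, (f x - Q x) ^ 2 ≤
      c0 * T i ^ 2 * ∫ x in bs N D, gi f x i ^ 2 := by
    have hi1 : IntegrableOn (fun x => gi f x i ^ 2) (bs N D) :=
      (hgic.pow 2).continuousOn.integrableOn_compact hbc
    have hi2 : IntegrableOn (fun x => (f x - Q x) ^ 2) (bs N D) := by
      apply Measure.integrableOn_of_bounded (M := 4) hbc.measure_lt_top.ne
      · exact ((hf.continuous.measurable.sub hQm).pow_const 2).aestronglyMeasurable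
      · refine ae_of_all _ fun x => ?_
        rw [Real.norm_eq_abs, abs_of_nonneg (sq_nonneg _)]
        have h1 := abs_le.1 (hf1 x)
        have h2 := abs_le.1 (hQ1 x)
        nlinarith
    have hcT : 0 ≤ c0 * T i ^ 2 := by positivity
    rw [← integral_const_mul]
    have hi3 : IntegrableOn (fun x => c0 * T i ^ 2 * gi f x i ^ 2) (bs N D) := hi1.const_mul _
    have hle : ∫⁻ x in bs N D, ENNReal.ofReal ((f x - Q x) ^ 2) ≤
        ∫⁻ x in bs N D, ENNReal.ofReal (c0 * T i ^ 2 * gi f x i ^ 2) := by
      rw [← lintegral_indicator hbm, ← lintegral_indicator hbm]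
      have m1 : Measurable fun x => ENNReal.ofReal ((f x - Q x) ^ 2) :=
        ((hf.continuous.measurable.sub hQm).pow_const 2).ennreal_ofReal
      have m2 : Measurable fun x => ENNReal.ofReal (c0 * T i ^ 2 * gi f x i ^ 2) :=
        ((hgic.measurable.pow_const 2).const_mul _).ennreal_ofReal
      apply fubini_le (m1.indicator hbm) (m2.indicator hbm) i
      intro x
      have e1 : ∀ H : (∀ i, E (m i)) → ℝ≥0∞,
          ∫⁻ y, (bs N D).indicator H (Function.update x i y) =
            ∫⁻ y in Fx x, H (Function.update x i y) := by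
        intro H
        rw [← lintegral_indicator (hFxm x)]
        congr 1
      rw [e1, e1]
      set φ : E (m i) → ℝ := fun y => f (Function.update x i y) with hφdef
      have hφ : ContDiff ℝ 1 φ := hf.comp (contDiff_update 1 x i)
      have hgφ : ∀ y, gi f (Function.update x i y) i = ‖fderiv ℝ φ y‖ := by
        intro y
        unfold gi
        have h1 : HasFDerivAt φ ((fderiv ℝ f (Function.update x i y)).comp
            (ContinuousLinearMap.single ℝ (fun i => E (m i)) i)) y := by
          have h2 : HasFDerivAt (fun y : E (m i) => Function.update x i y)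
              (ContinuousLinearMap.single ℝ (fun i => E (m i)) i) y := by
            have h3 : (fun y : E (m i) => Function.update x i y) = fun y =>
                Function.update x i 0 + ContinuousLinearMap.single ℝ (fun i => E (m i)) i y := by
              funext y j
              by_cases hj : j = i
              · subst hj
                simp
              · simp [hj]
            rw [h3]
            exact (ContinuousLinearMap.hasFDerivAt _).const_add _
          exact ((hf.differentiable one_ne_zero _).hasFDerivAt).comp y h2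
        rw [h1.fderiv]
      have hQx : ∀ y, Q (Function.update x i y) = Q x := hQu x
      simp_rw [hQx, hgφ]
      rcases fibre hNn hD hT i x with h | ⟨r, hr0, hrT, h⟩
      · have : Fx x = ∅ := h
        rw [this]
        simp
      have hFr : Fx x = {y | N i y ≤ r} := h
      have hP := poi_r (hm i) (hN i) hc hr0 hrT hφ
      have hQq : Q x = (∫ z in {y | N i y ≤ r}, φ z) / (volume {y | N i y ≤ r}).toReal := by
        rw [hQ]
        simp only
        rw [hAeq, hBeq, hFr]
      rw [← hQq, ← hFr] at hP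
      have j1 : IntegrableOn (fun y => (φ y - Q x) ^ 2) (Fx x) :=
        ((hφ.continuous.sub continuous_const).pow 2).continuousOn.integrableOn_compact (hFxc x)
      have j2 : IntegrableOn (fun y => c0 * T i ^ 2 * ‖fderiv ℝ φ y‖ ^ 2) (Fx x) :=
        (continuous_const.mul ((hφ.continuous_fderiv one_ne_zero).norm.pow
          2)).continuousOn.integrableOn_compact (hFxc x)
      rw [← ofReal_integral_eq_lintegral_ofReal j1 (ae_of_all _ fun y => sq_nonneg _),
        ← ofReal_integral_eq_lintegral_ofReal j2 (ae_of_all _ fun y => by positivity)]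
      apply ENNReal.ofReal_le_ofReal
      rw [integral_const_mul]
      exact hP
    rw [← ofReal_integral_eq_lintegral_ofReal hi2 (ae_of_all _ fun y => sq_nonneg _),
      ← ofReal_integral_eq_lintegral_ofReal hi3 (ae_of_all _ fun y => by positivity)] at hle
    exact (ENNReal.ofReal_le_ofReal_iff (integral_nonneg fun y => by positivity)).1 hle
  have hv : 0 ≤ (volume (bs N D)).toReal⁻¹ := inv_nonneg.2 ENNReal.toReal_nonneg
  calc (volume (bs N D)).toReal⁻¹ * ∫ x in bs N D, (f x - Q x) ^ 2 ≤
        (volume (bs N D)).toReal⁻¹ * (c0 * T i ^ 2 * ∫ x in bs N D, gi f x i ^ 2) :=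
        mul_le_mul_of_nonneg_left hmain hv
    _ = _ := by ring

end Pool.Agent.U818.UB
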