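import Pool.Agent.U18.UB.Stm2
import Pool.Agent.R751.MB.All
import Pool.Agent.R751.MB.Par
import Pool.Agent.R754.KG.C

/-!
# Project KUS, package ANP (author helper818): the unit balls of the admissible norms satisfy the
Poincare inequality in isotropic position
-/

set_option autoImplicit false

namespace Pool.Agent.U818.UB

open MeasureTheory Set Filter Topology
open scoped ENNReal InnerProductSpace
open Pool.Agent.R751.MB (Eu AP Adm LCn VW EW Body AN)
open Pool.Agent.R751.MB.ParAux (indK)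

theorem body_ball {κ : Type} [Fintype κ] {N : Eu κ → ℝ} (h : Pool.Agent.R751.MB.Nrm N) :
    Body {x | N x ≤ 1} := by
  have hp := h.pow
  have hb : Bornology.IsBounded {x | N x ≤ 1} := hp.bdd le_rfl
  refine ⟨Metric.isCompact_of_isClosed_isBounded (isClosed_le hp.cont continuous_const) hb, ?_, ?_⟩
  · intro x hx y hy a b ha hb hab
    have h1 := h.add_le (a • x) (b • y)
    rw [h.smul, h.smul, abs_of_nonneg ha, abs_of_nonneg hb] at h1
    have hx' : N x ≤ 1 := hx
    have hy' : N y ≤ 1 := hy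
    have h2 : N (a • x + b • y) ≤ 1 := by nlinarith
    exact h2
  · refine ⟨0, mem_interior.2 ⟨{x | N x < 1}, fun x (hx : N x < 1) => (le_of_lt hx : N x ≤ 1),
      isOpen_lt hp.cont continuous_const, ?_⟩⟩
    show N 0 < 1
    rw [hp.zero le_rfl]
    exact one_pos

theorem lcn_ball {κ : Type} [Fintype κ] {N : Eu κ → ℝ} (h : Pool.Agent.R751.MB.Nrm N) :
    LCn (indK {x | N x ≤ 1}) := by
  intro x y t h0 h1
  have := Pool.Agent.R751.MB.ParAux.ind_logc (body_ball h).conv 1 one_pos x y t h0 h1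
  simp only [one_mul] at this
  exact this

theorem indK_eq {κ κ' : Type} {N : Eu κ → ℝ} {N' : Eu κ' → ℝ} {y : Eu κ} {x : Eu κ'}
    (h : N y = N' x) : indK {x | N x ≤ 1} y = indK {x | N' x ≤ 1} x := by
  unfold indK
  by_cases hx : N' x ≤ 1
  · have hy : N y ≤ 1 := by rw [h]; exact hx
    rw [indicator_of_mem (show y ∈ {x | N x ≤ 1} from hy),
      indicator_of_mem (show x ∈ {x | N' x ≤ 1} from hx)]
  · have hy : ¬ N y ≤ 1 := by rw [h]; exact hx
    rw [indicator_of_notMem (show y ∉ {x | N x ≤ 1} from hy),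
      indicator_of_notMem (show x ∉ {x | N' x ≤ 1} from hx)]

theorem pi_of_ap {k : ℕ} {A : ℝ} {K : Set (Eu (Fin k))} (hK : Body K) (h : AP A (indK K)) :
    Pool.Agent.R755.KF.PI A K := by
  obtain ⟨S, hS, hP⟩ := h.poi
  have hKm := hK.comp.measurableSet
  have hV : ∀ f : Eu (Fin k) → ℝ, VW (indK K) f =
      (∫ x, f x ^ 2 ∂(Pool.Agent.R754.KG.un K)) - (∫ x, f x ∂(Pool.Agent.R754.KG.un K)) ^ 2 :=
    fun f => Pool.Agent.R754.KG.VW_ind hKm f
  have hE : ∀ f : Eu (Fin k) → ℝ, EW (indK K) f = ∫ x, f x ∂(Pool.Agent.R754.KG.un K) :=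
    fun f => Pool.Agent.R754.KG.EW_ind hKm f
  refine ⟨hK.comp, hK.conv, hK.int, S.toLinearEquiv, ?_, ?_⟩
  · intro θ
    have h1 := hS θ
    rw [hV] at h1
    exact h1
  · intro f hf
    have hc : IsCompact (S '' K) := hK.comp.image S.continuous
    obtain ⟨R, hR⟩ := hc.isBounded.subset_closedBall (0 : Eu (Fin k))
    have hm0 : 0 ≤ max R 0 := le_max_right _ _
    let χ : ContDiffBump (0 : Eu (Fin k)) :=
      ⟨max R 0 + 1, max R 0 + 2, by positivity, by linarith⟩
    set g : Eu (Fin k) → ℝ := fun x => χ x * f x with hgdef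
    have hg : ContDiff ℝ 1 g := χ.contDiff.mul hf
    have hgc : HasCompactSupport g := χ.hasCompactSupport.mul_right
    have hb : ∃ B : ℝ, ∀ x, |g x| ≤ B := by
      obtain ⟨B, hB⟩ := hgc.exists_bound_of_continuous hg.continuous
      exact ⟨B, hB⟩
    have hl : ∃ L : ℝ, ∀ x, ‖fderiv ℝ g x‖ ≤ L :=
      (hgc.fderiv ℝ).exists_bound_of_continuous (hg.continuous_fderiv one_ne_zero)
    have hev : ∀ x ∈ K, g =ᶠ[𝓝 (S x)] f := by
      intro x hx
      have h1 : S x ∈ Metric.ball (0 : Eu (Fin k)) (max R 0 + 1) := by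
        have h2 := hR (mem_image_of_mem S hx)
        rw [mem_closedBall_zero_iff] at h2
        rw [mem_ball_zero_iff]
        have := le_max_left R 0
        linarith
      filter_upwards [Metric.isOpen_ball.mem_nhds h1] with y hy
      have h3 : χ y = 1 := χ.one_of_mem_closedBall (Metric.ball_subset_closedBall hy)
      simp only [hgdef, h3, one_mul]
    have h2 := hP g hg hb hl
    rw [hV, hE] at h2
    have e1 : ∀ u v : Eu (Fin k) → ℝ, (∀ x ∈ K, u x = v x) →
        ∫ x, u x ∂(Pool.Agent.R754.KG.un K) = ∫ x, v x ∂(Pool.Agent.R754.KG.un K) := by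
      intro u v huv
      unfold Pool.Agent.R754.KG.un
      rw [integral_smul_measure, integral_smul_measure, setIntegral_congr_fun hKm huv]
    rw [e1 (fun x => g (S x) ^ 2) (fun x => f (S x) ^ 2) fun x hx => by
        simp only [(hev x hx).eq_of_nhds],
      e1 (fun x => g (S x)) (fun x => f (S x)) fun x hx => (hev x hx).eq_of_nhds,
      e1 (fun x => ‖fderiv ℝ g (S x)‖ ^ 2) (fun x => ‖fderiv ℝ f (S x)‖ ^ 2) fun x hx => by
        simp only [(hev x hx).fderiv_eq]] at h2
    exact h2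

theorem t_ANP : Pool.Agent.U18.UB.S_ANP := by
  obtain ⟨A1, hA1, H1⟩ := Pool.Agent.R751.MB.pSYM
  obtain ⟨A2, hA2, H2⟩ := Pool.Agent.R751.MB.pMAT
  obtain ⟨A3, hA3, H3⟩ := Pool.Agent.R751.MB.pHER
  refine ⟨max A1 (max A2 A3), lt_max_of_lt_left hA1, fun k N h => ?_⟩
  have hN := h.basic.1
  apply pi_of_ap (body_ball hN)
  cases h with
  | sym _ _ hk hN' hinv =>
    exact (H1 k _ hk (Pool.Agent.R751.MB.ParAux.adm (body_ball hN')) (lcn_ball hN') fun σ x y hxy =>
      indK_eq (hinv σ x y hxy)).mono (le_max_left _ _)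
  | mat m l _ e N' hm hl hlm hN' hinv =>
    have h1 := H2 m l _ hm hl hlm (Pool.Agent.R751.MB.ParAux.adm (body_ball hN')) (lcn_ball hN')
      fun g hg X => indK_eq (hinv g hg X)
    have h2 := (Pool.Agent.R751.MB.lin _ _ _ e _ h1).mono
      ((le_max_left _ _).trans (le_max_right A1 (max A2 A3)))
    have h3 : (fun z => indK {x | N' x ≤ 1} (e.symm z)) = indK {z | N' (e.symm z) ≤ 1} := by
      funext z
      exact indK_eq (N := N') (N' := fun z => N' (e.symm z)) rfl
    rw [h3] at h2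
    exact h2
  | her 𝕜 D ι F _ e N' hD hF hN' hinv =>
    have h1 := H3 𝕜 D hD ι F hF _ (Pool.Agent.R751.MB.ParAux.adm (body_ball hN')) (lcn_ball hN')
      fun U hU x y hxy => indK_eq (hinv U hU x y hxy)
    have h2 := (Pool.Agent.R751.MB.lin _ _ _ e _ h1).mono
      ((le_max_right _ _).trans (le_max_right A1 (max A2 A3)))
    have h3 : (fun z => indK {x | N' x ≤ 1} (e.symm z)) = indK {z | N' (e.symm z) ≤ 1} := by
      funext z
      exact indK_eq (N := N') (N' := fun z => N' (e.symm z)) rfl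
    rw [h3] at h2
    exact h2

end Pool.Agent.U818.UB
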